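import Pool.Agent.Lib.MP_09c31c_an.TH.Lim
import Pool.Agent.Lib.MP_09c31c_an.TH.Null

/-!
The exact rate of power decay of the coefficients that a locally univalent function with a
boundary curve of positive area can have.
-/

set_option autoImplicit false

namespace Pool.Agent.Results.MP_09c31c_an.DecayThreshold

open Metric MeasureTheory

theorem result (S : Set ℝ) : List.TFAE
    [∀ s ∈ S, s < 1 / 2,
     ∃ (a : ℕ → ℂ) (f : ℂ → ℂ), a 0 = 0 ∧ Summable (fun n => ‖a n‖) ∧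
      (∀ s ∈ S, Summable fun n : ℕ => (n : ℝ) ^ s * ‖a n‖) ∧
      (∀ z : ℂ, ‖z‖ ≤ 1 → HasSum (fun n => a n * z ^ n) (f z)) ∧
      AnalyticOnNhd ℂ f (ball 0 1) ∧ (∀ z : ℂ, ‖z‖ < 1 → deriv f z ≠ 0) ∧
      0 < volume (f '' sphere 0 1),
     ∃ (a : ℕ → ℂ) (f : ℂ → ℂ), a 0 = 0 ∧ Summable (fun n => ‖a n‖) ∧
      (∀ s ∈ S, Summable fun n : ℕ => (n : ℝ) ^ s * ‖a n‖) ∧
      (∀ z : ℂ, ‖z‖ ≤ 1 → HasSum (fun n => a n * z ^ n) (f z)) ∧
      AnalyticOnNhd ℂ f (ball 0 1) ∧ (∀ z : ℂ, ‖z‖ < 1 → deriv f z ≠ 0) ∧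
      ∃ (c : ℂ) (r : ℝ), 0 < r ∧ ball c r ⊆ f '' sphere 0 1] := by
  tfae_have 1 → 3 := by
    intro hS
    obtain ⟨a, h0, h1, hw, h2, h3⟩ := Pool.Agent.Lib.MP_09c31c_an.TH.main
    have h4 : ∀ (n : ℕ) (z : ℂ), ‖z‖ ≤ 1 → ‖a n * z ^ n‖ ≤ ‖a n‖ := fun n z hz => by
      rw [norm_mul, norm_pow]
      exact mul_le_of_le_one_right (norm_nonneg _) (pow_le_one₀ (norm_nonneg _) hz)
    refine ⟨a, fun w => ∑' n, a n * w ^ n, h0, h1, fun s hs => hw s (hS s hs),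
      fun z hz => (Summable.of_norm_bounded h1 fun n => h4 n z hz).hasSum, ?_, h2,
      1, (1 / 2) ^ 10, by positivity, ball_subset_closedBall.trans h3⟩
    refine DifferentiableOn.analyticOnNhd ?_ isOpen_ball
    exact Complex.differentiableOn_tsum_of_summable_norm h1 (fun n => by fun_prop) isOpen_ball
      fun n w hw => h4 n w (mem_ball_zero_iff.1 hw).le
  tfae_have 3 → 2 := by
    rintro ⟨a, f, h0, h1, h2, h3, h4, h5, c, r, hr, h6⟩
    exact ⟨a, f, h0, h1, h2, h3, h4, h5, (measure_ball_pos volume c hr).trans_le (measure_mono h6)⟩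
  tfae_have 2 → 1 := by
    rintro ⟨a, f, -, -, h2, h3, -, -, h6⟩ s hs
    by_contra hlt
    refine h6.ne' (Pool.Agent.Lib.MP_09c31c_an.TH.null_image a f ?_ fun z hz => h3 z hz.le)
    refine Summable.of_nonneg_of_le (fun n => by positivity) (fun n => ?_) (h2 s hs)
    refine mul_le_mul_of_nonneg_right ?_ (norm_nonneg _)
    rcases Nat.eq_zero_or_pos n with h | h
    · rw [h, Nat.cast_zero, Real.sqrt_zero]; positivity
    · rw [Real.sqrt_eq_rpow]
      exact Real.rpow_le_rpow_of_exponent_le (by exact_mod_cast h) (not_lt.1 hlt)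
  tfae_finish

end Pool.Agent.Results.MP_09c31c_an.DecayThreshold
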